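import Pool.Agent.L0h45.AV.Stm3

/-!
# Project AV, module BDSn: the size of reduced tuples, both signs
(adapted from module BDS of helper84)
-/

set_option autoImplicit false
set_option linter.all false

namespace Pool.Agent.L0h89.AV

open Pool.Agent.N874.PP (Tup chA chB gq tau Ev)
open Pool.Agent.L0h45.AV

theorem abs_mul_le' {a b c : ℝ} (ha : |a| ≤ 1) (hb : |b| ≤ c) : |a * b| ≤ c := by
  rw [abs_mul]
  calc |a| * |b| ≤ 1 * c := mul_le_mul ha hb (abs_nonneg _) zero_le_one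
    _ = c := one_mul _

theorem t_BDSn : S_BDSn := by
  intro p v θ C S X hFD hX hA hB
  obtain ⟨hp0, hp1, hv, hpv⟩ := hFD
  rw [chA_Bp _ _ _ _ _ hv.ne'] at hA
  rw [chB_Bp _ _ _ _ _ hv.ne'] at hB
  have hA2 := abs_le.1 hA
  have hθ : |θ| ≤ 2 * X := by
    obtain ⟨A, hAe⟩ : ∃ A, A = (C ^ 2 + S ^ 2 - 12 * θ ^ 2) / 4 := ⟨_, rfl⟩
    rw [← hAe] at hA2 hB
    obtain ⟨t, ht⟩ : ∃ t, t = |θ| := ⟨_, rfl⟩
    have ht0 : 0 ≤ t := by rw [ht]; exact abs_nonneg _
    have h1 : t * (t ^ 2 - X ^ 2) ≤ |-θ ^ 3 - A * θ| := by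
      rw [show -θ ^ 3 - A * θ = -(θ * (θ ^ 2 + A)) by ring, abs_neg, abs_mul, ← ht]
      apply mul_le_mul_of_nonneg_left _ ht0
      refine le_trans ?_ (le_abs_self _)
      rw [ht, sq_abs]
      linarith [hA2.1]
    have h2 : t * (t ^ 2 - X ^ 2) ≤ X ^ 3 := h1.trans hB
    rw [← ht]
    by_contra hcon
    push Not at hcon
    have h3 : 4 * X ^ 2 ≤ t ^ 2 := by nlinarith
    have h4 : 0 < t := by linarith
    have h5 : t * (3 / 4 * t ^ 2) ≤ t * (t ^ 2 - X ^ 2) :=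
      mul_le_mul_of_nonneg_left (by linarith) ht0
    have h6 : (2 * X) ^ 3 ≤ t ^ 3 := pow_le_pow_left₀ (by linarith) hcon.le 3
    have h7 : 0 ≤ X ^ 3 := by positivity
    have h8 : 0 < t ^ 3 := by positivity
    nlinarith
  have hθ2 : θ ^ 2 ≤ (2 * X) ^ 2 := by
    rw [← sq_abs θ]
    exact pow_le_pow_left₀ (abs_nonneg _) hθ 2
  have hCS : C ^ 2 + S ^ 2 ≤ (8 * X) ^ 2 := by nlinarith [hA2.2, sq_nonneg X]
  have hC : |C| ≤ 8 * X := abs_le_of_sq_le_sq (by nlinarith [sq_nonneg S]) (by linarith)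
  have hS : |S| ≤ 8 * X := abs_le_of_sq_le_sq (by nlinarith [sq_nonneg C]) (by linarith)
  have hE : |3 * θ + C| ≤ 14 * X := by
    have h1 := abs_add_le (3 * θ) C
    rw [abs_mul, abs_of_pos (by norm_num : (0 : ℝ) < 3)] at h1
    linarith
  have hG : |3 * θ - C| ≤ 14 * X := by
    have h1 := abs_sub (3 * θ) C
    rw [abs_mul, abs_of_pos (by norm_num : (0 : ℝ) < 3)] at h1
    linarith
  have hv2 : 1 / 2 ≤ v := by nlinarith
  obtain ⟨r, hr⟩ : ∃ r, r = p / v := ⟨_, rfl⟩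
  have hpr : p = r * v := by rw [hr]; field_simp
  have hr0 : 0 ≤ r := by rw [hr]; positivity
  have hr1 : r ≤ 1 := by
    rw [hr, div_le_one hv]; linarith
  have ha1 : |r| ≤ 1 := by rw [abs_of_nonneg hr0]; exact hr1
  have ha2 : |r ^ 2| ≤ 1 := by
    rw [abs_of_nonneg (by positivity)]; exact pow_le_one₀ hr0 hr1
  have ha3 : |r ^ 3| ≤ 1 := by
    rw [abs_of_nonneg (by positivity)]; exact pow_le_one₀ hr0 hr1
  have ha4 : |r ^ 4| ≤ 1 := by
    rw [abs_of_nonneg (by positivity)]; exact pow_le_one₀ hr0 hr1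
  have e1 := abs_le.1 (abs_mul_le' ha1 hE)
  have e2 := abs_le.1 (abs_mul_le' ha2 hE)
  have e3 := abs_le.1 (abs_mul_le' ha3 hE)
  have e4 := abs_le.1 (abs_mul_le' ha4 hE)
  have s1 := abs_le.1 (abs_mul_le' ha1 hS)
  have s2 := abs_le.1 (abs_mul_le' ha2 hS)
  have s3 := abs_le.1 (abs_mul_le' ha3 hS)
  have t1 := abs_le.1 (abs_mul_le' ha1 hθ)
  have t2 := abs_le.1 (abs_mul_le' ha2 hθ)
  have hE' := abs_le.1 hE
  have hG' := abs_le.1 hG
  have hS' := abs_le.1 hS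
  have hT' := abs_le.1 hθ
  have hvne := hv.ne'
  have x1 : (Bp p v θ C S).x = (3 * θ + C) / 4 / v ^ 2 := by
    simp only [Bp]; field_simp
  have x2 : (Bp p v θ C S).y = (2 * (r * (3 * θ + C)) - S) / 4 / v := by
    simp only [Bp]; rw [hpr]; field_simp
  have x3 : (Bp p v θ C S).c = -(r ^ 2 * (3 * θ + C) - r * S + θ) / 2 := by
    simp only [Bp]; rw [hpr]; field_simp
  have x4 : (Bp p v θ C S).z =
      (-2 * (r ^ 3 * (3 * θ + C)) + 3 * (r ^ 2 * S) - 6 * (r * θ) + S) / 2 * v := by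
    simp only [Bp]; rw [hpr]; field_simp
  have x5 : (Bp p v θ C S).w =
      (r ^ 4 * (3 * θ + C) - 2 * (r ^ 3 * S) + 6 * (r ^ 2 * θ) - 2 * (r * S) + (3 * θ - C)) *
        v ^ 2 := by
    simp only [Bp]; rw [hpr]; field_simp
  refine ⟨hθ, ?_, ?_, ?_, ?_, ?_⟩
  · rw [x1, abs_div, abs_of_pos (by positivity : 0 < v ^ 2), div_mul_cancel₀ _ (by positivity)]
    rw [abs_le]
    constructor <;> linarith
  · rw [x2, abs_div, abs_of_pos hv, div_mul_cancel₀ _ hvne]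
    rw [abs_le]
    constructor <;> linarith
  · rw [x3, abs_le]
    constructor <;> linarith
  · rw [x4, abs_mul, abs_of_pos hv]
    apply mul_le_mul_of_nonneg_right _ hv.le
    rw [abs_le]
    constructor <;> linarith
  · rw [x5, abs_mul, abs_of_pos (by positivity : 0 < v ^ 2)]
    apply mul_le_mul_of_nonneg_right _ (by positivity)
    rw [abs_le]
    constructor <;> linarith

end Pool.Agent.L0h89.AV
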